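import Pool.Agent.W254.LF.Stm3
import Pool.Agent.W289.SL.PLog

/-! The logarithm of a power series. -/

set_option autoImplicit false

namespace Pool.Agent.W74.LF

open Filter Topology Pool.Agent.W289.SL

variable {p : ℕ} [hp : Fact p.Prime]

/-- powers of a power series with small coefficients -/
lemma coeff_norm_le (a : ℕ → ℂ_[p]) (ha : ∀ k, ‖a k‖ ≤ 1) (l k : ℕ) :
    ‖PowerSeries.coeff k (PowerSeries.mk a ^ l)‖ ≤ 1 := by
  induction l generalizing k with
  | zero =>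
    rw [pow_zero, PowerSeries.coeff_one]
    split_ifs <;> simp
  | succ l ih =>
    rw [pow_succ, PowerSeries.coeff_mul]
    refine IsUltrametricDist.norm_sum_le_of_forall_le_of_nonneg zero_le_one fun q _ => ?_
    rw [norm_mul, PowerSeries.coeff_mk]
    exact mul_le_one₀ (ih q.1) (norm_nonneg _) (ha q.2)

lemma coeff_zero_of_lt (a : ℕ → ℂ_[p]) (h0 : a 0 = 0) (l k : ℕ) (hk : k < l) :
    PowerSeries.coeff k (PowerSeries.mk a ^ l) = 0 := by
  have h1 : PowerSeries.X ∣ PowerSeries.mk a := by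
    rw [PowerSeries.X_dvd_iff, ← PowerSeries.coeff_zero_eq_constantCoeff_apply,
      PowerSeries.coeff_mk, h0]
  exact PowerSeries.X_pow_dvd_iff.1 (pow_dvd_pow_of_dvd h1 l) k hk

lemma summable_aux (c : ℕ → ℂ_[p]) (hc : ∀ k, ‖c k‖ ≤ 1) {t : ℂ_[p]} (ht : ‖t‖ < 1) :
    Summable fun k => ‖c k * t ^ k‖ := by
  refine Summable.of_nonneg_of_le (fun _ => norm_nonneg _) (fun k => ?_)
    (summable_geometric_of_lt_one (norm_nonneg t) ht)
  rw [norm_mul, norm_pow]
  calc ‖c k‖ * ‖t‖ ^ k ≤ 1 * ‖t‖ ^ k :=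
        mul_le_mul_of_nonneg_right (hc k) (pow_nonneg (norm_nonneg _) _)
    _ = ‖t‖ ^ k := one_mul _

lemma eval_pow (a : ℕ → ℂ_[p]) (ha : ∀ k, ‖a k‖ ≤ 1) {t : ℂ_[p]} (ht : ‖t‖ < 1) (l : ℕ) :
    ∑' k, PowerSeries.coeff k (PowerSeries.mk a ^ l) * t ^ k = (∑' k, a k * t ^ k) ^ l := by
  induction l with
  | zero =>
    rw [pow_zero, pow_zero, tsum_eq_single 0]
    · simp
    · intro k hk
      rw [PowerSeries.coeff_one, if_neg hk, zero_mul]
  | succ l ih =>
    rw [pow_succ (∑' k, a k * t ^ k), ← ih,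
      tsum_mul_tsum_eq_tsum_sum_antidiagonal_of_summable_norm
        (summable_aux _ (coeff_norm_le a ha l) ht) (summable_aux _ ha ht)]
    refine tsum_congr fun k => ?_
    rw [pow_succ, PowerSeries.coeff_mul, Finset.sum_mul]
    refine Finset.sum_congr rfl fun q hq => ?_
    rw [PowerSeries.coeff_mk, ← Finset.HasAntidiagonal.mem_antidiagonal.1 hq, pow_add]
    ring

/-- the coefficients of the composed series -/
noncomputable def Dk (a : ℕ → ℂ_[p]) (k : ℕ) : ℂ_[p] :=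
  ∑ l ∈ Finset.range k, (-1) ^ l * PowerSeries.coeff k (PowerSeries.mk a ^ (l + 1)) /
    ((l : ℂ_[p]) + 1)

lemma inv_norm_le (l : ℕ) : ‖((l : ℂ_[p]) + 1)‖⁻¹ ≤ (l : ℝ) + 1 := by
  have h := one_le_norm_natCast (p := p) (l + 1) (by omega)
  push_cast at h
  have hpos : 0 < ‖((l : ℂ_[p]) + 1)‖ := by
    rw [norm_pos_iff]
    exact_mod_cast (by omega : l + 1 ≠ 0)
  rw [inv_le_iff_one_le_mul₀ hpos, mul_comm]
  exact h

lemma term_norm (a : ℕ → ℂ_[p]) (ha : ∀ k, ‖a k‖ ≤ 1) (l k : ℕ) :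
    ‖(-1) ^ l * PowerSeries.coeff k (PowerSeries.mk a ^ (l + 1)) / ((l : ℂ_[p]) + 1)‖ ≤
      (l : ℝ) + 1 := by
  rw [norm_div, norm_mul, norm_pow, norm_neg, norm_one, one_pow, one_mul, div_eq_mul_inv]
  calc ‖PowerSeries.coeff k (PowerSeries.mk a ^ (l + 1))‖ * ‖((l : ℂ_[p]) + 1)‖⁻¹
      ≤ 1 * ((l : ℝ) + 1) := mul_le_mul (coeff_norm_le a ha _ _) (inv_norm_le l)
        (inv_nonneg.2 (norm_nonneg _)) zero_le_one
    _ = (l : ℝ) + 1 := one_mul _

lemma Dk_norm (a : ℕ → ℂ_[p]) (ha : ∀ k, ‖a k‖ ≤ 1) (k : ℕ) : ‖Dk a k‖ ≤ k := by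
  unfold Dk
  refine IsUltrametricDist.norm_sum_le_of_forall_le_of_nonneg (Nat.cast_nonneg k) fun l hl => ?_
  refine (term_norm a ha l k).trans ?_
  have : l + 1 ≤ k := Finset.mem_range.1 hl
  exact_mod_cast this

/-- the composition of the logarithm with a power series -/
theorem log_comp {L : ℂ_[p] → ℂ_[p]} (hL : IsIwasawaLog p L) (a : ℕ → ℂ_[p])
    (ha : ∀ k, ‖a k‖ ≤ 1) (h0 : a 0 = 0) {t : ℂ_[p]} (ht : ‖t‖ ≤ 1 / 3) :
    ‖∑' k, a k * t ^ k‖ < 1 ∧ L (1 + ∑' k, a k * t ^ k) = ∑' k, Dk a k * t ^ k := by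
  have ht1 : ‖t‖ < 1 := lt_of_le_of_lt ht (by norm_num)
  set w := ∑' k, a k * t ^ k with hw
  have hwn : ‖w‖ < 1 := by
    have : ‖w‖ ≤ 1 / 3 := by
      rw [hw]
      refine IsUltrametricDist.norm_tsum_le_of_forall_le_of_nonneg (by norm_num) fun k => ?_
      rcases Nat.eq_zero_or_pos k with hk | hk
      · subst hk; rw [h0]; simp
      · rw [norm_mul, norm_pow]
        calc ‖a k‖ * ‖t‖ ^ k ≤ 1 * ‖t‖ ^ 1 :=
              mul_le_mul (ha k) (pow_le_pow_of_le_one (norm_nonneg _) ht1.le hk)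
                (pow_nonneg (norm_nonneg _) _) zero_le_one
          _ ≤ 1 / 3 := by rw [one_mul, pow_one]; exact ht
    linarith
  refine ⟨hwn, ?_⟩
  have h1 := (hL.ser w hwn).tsum_eq
  rw [← h1]
  set F : ℕ → ℕ → ℂ_[p] := fun l k =>
    (-1) ^ l * PowerSeries.coeff k (PowerSeries.mk a ^ (l + 1)) / ((l : ℂ_[p]) + 1) * t ^ k with hF
  have h2 : ∀ l : ℕ, (-1 : ℂ_[p]) ^ l * w ^ (l + 1) / ((l : ℂ_[p]) + 1) = ∑' k, F l k := by
    intro l
    rw [hw, ← eval_pow a ha ht1 (l + 1), ← tsum_mul_left, ← tsum_div_const]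
    refine tsum_congr fun k => ?_
    rw [hF]
    ring
  simp_rw [h2]
  have hsum : Summable (Function.uncurry F) := by
    have hb : Summable fun q : ℕ × ℕ => (((q.1 : ℝ) + 1) * (3 / 5) ^ q.1) * ((3 / 5 : ℝ) ^ q.2) := by
      refine Summable.mul_of_nonneg (f := fun l : ℕ => ((l : ℝ) + 1) * (3 / 5) ^ l)
        (g := fun k : ℕ => (3 / 5 : ℝ) ^ k) ?_ (summable_geometric_of_lt_one (by norm_num)
          (by norm_num)) (fun l => by positivity) (fun k => by positivity)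
      have e1 : Summable fun l : ℕ => (l : ℝ) ^ 1 * (3 / 5 : ℝ) ^ l :=
        summable_pow_mul_geometric_of_norm_lt_one 1 (by norm_num)
      have e2 : Summable fun l : ℕ => (3 / 5 : ℝ) ^ l :=
        summable_geometric_of_lt_one (by norm_num) (by norm_num)
      refine (e1.add e2).congr fun l => ?_
      ring
    refine Summable.of_norm_bounded hb fun q => ?_
    obtain ⟨l, k⟩ := q
    show ‖F l k‖ ≤ ((l : ℝ) + 1) * (3 / 5) ^ l * (3 / 5) ^ k
    rcases Nat.lt_or_ge k (l + 1) with hk | hk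
    · rw [hF]
      simp only
      rw [coeff_zero_of_lt a h0 (l + 1) k hk]
      simp
      positivity
    · rw [hF]
      simp only
      rw [norm_mul, norm_pow]
      have e1 : ‖t‖ ^ k ≤ (3 / 5) ^ l * (3 / 5) ^ k := by
        calc ‖t‖ ^ k ≤ (1 / 3) ^ k := pow_le_pow_left₀ (norm_nonneg _) ht k
          _ ≤ (3 / 5 * (3 / 5)) ^ k := pow_le_pow_left₀ (by norm_num) (by norm_num) k
          _ = (3 / 5) ^ k * (3 / 5) ^ k := mul_pow _ _ _
          _ ≤ (3 / 5) ^ l * (3 / 5) ^ k := by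
              refine mul_le_mul_of_nonneg_right ?_ (by positivity)
              exact pow_le_pow_of_le_one (by norm_num) (by norm_num) (by omega)
      calc ‖(-1) ^ l * PowerSeries.coeff k (PowerSeries.mk a ^ (l + 1)) / ((l : ℂ_[p]) + 1)‖ *
            ‖t‖ ^ k ≤ ((l : ℝ) + 1) * ((3 / 5) ^ l * (3 / 5) ^ k) :=
            mul_le_mul (term_norm a ha l k) e1 (pow_nonneg (norm_nonneg _) _) (by positivity)
        _ = ((l : ℝ) + 1) * (3 / 5) ^ l * (3 / 5) ^ k := by ring
  rw [← hsum.tsum_comm]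
  refine tsum_congr fun k => ?_
  unfold Dk
  rw [tsum_eq_sum (s := Finset.range k), Finset.sum_mul]
  intro l hl
  rw [Finset.mem_range, not_lt] at hl
  rw [hF]
  simp only
  rw [coeff_zero_of_lt a h0 (l + 1) k (by omega)]
  simp

theorem t_LOGB : Pool.Agent.W254.LF.S_LOGB := by
  intro p hp hp2 L hL u ξ hu hLu hξ
  have hp3 : 3 ≤ p := by
    have := hp.out.two_le
    omega
  have hp0 : (0 : ℝ) < p := by positivity
  have hpn : ‖((p : ℕ) : ℂ_[p])‖ = (p : ℝ)⁻¹ := norm_p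
  have hpn3 : ‖((p : ℕ) : ℂ_[p])‖ ≤ 1 / 3 := by
    rw [hpn, one_div]
    exact inv_anti₀ (by norm_num) (by exact_mod_cast hp3)
  have hpne : ((p : ℕ) : ℂ_[p]) ≠ 0 := by
    exact_mod_cast hp.out.ne_zero
  have hu0 : u ≠ 0 := by
    intro h; rw [h, norm_zero] at hu; exact zero_ne_one hu
  set a : ℕ → ℂ_[p] := fun k => if k = 0 then 0 else ξ (k - 1) / u with hadef
  have ha0 : a 0 = 0 := by simp [hadef]
  have has : ∀ k, a (k + 1) = ξ k / u := by intro k; simp [hadef]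
  have ha : ∀ k, ‖a k‖ ≤ 1 := by
    intro k
    rcases Nat.eq_zero_or_pos k with hk | hk
    · subst hk; rw [ha0]; simp
    · obtain ⟨j, rfl⟩ : ∃ j, k = j + 1 := ⟨k - 1, by omega⟩
      rw [has, norm_div, hu, div_one]
      exact hξ j
  set B : ℕ → ℂ_[p] := fun k => if k = 0 then L u / p else Dk a k * (p : ℂ_[p]) ^ (k - 1) with hB
  have hB0 : B 0 = L u / p := by simp [hB]
  have hBs : ∀ k, B (k + 1) = Dk a (k + 1) * (p : ℂ_[p]) ^ k := by intro k; simp [hB]
  have hBn : ∀ k, ‖B (k + 1)‖ ≤ ((k : ℝ) + 1) * (1 / 3) ^ k := by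
    intro k
    rw [hBs, norm_mul, norm_pow]
    refine mul_le_mul ?_ (pow_le_pow_left₀ (norm_nonneg _) hpn3 k)
      (pow_nonneg (norm_nonneg _) _) (by positivity)
    have := Dk_norm a ha (k + 1)
    push_cast at this
    exact this
  have hD1 : B 1 = ξ 0 / u := by
    rw [hBs 0]
    unfold Dk
    simp only [zero_add, Finset.range_one, Finset.sum_singleton, pow_zero, one_mul, pow_one,
      PowerSeries.coeff_mk, mul_one, Nat.cast_zero, div_one]
    exact has 0
  have hsumB : Summable fun k => ‖B k‖ := by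
    rw [← summable_nat_add_iff 1]
    refine Summable.of_nonneg_of_le (fun _ => norm_nonneg _) hBn ?_
    have e1 : Summable fun l : ℕ => (l : ℝ) ^ 1 * (1 / 3 : ℝ) ^ l :=
      summable_pow_mul_geometric_of_norm_lt_one 1 (by norm_num)
    have e2 : Summable fun l : ℕ => (1 / 3 : ℝ) ^ l :=
      summable_geometric_of_lt_one (by norm_num) (by norm_num)
    refine (e1.add e2).congr fun l => ?_
    ring
  have hlt : ∀ k, 2 ≤ k → ‖B k‖ < 1 := by
    intro k hk
    obtain ⟨j, rfl⟩ : ∃ j, k = j + 2 := ⟨k - 2, by omega⟩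
    refine lt_of_le_of_lt (hBn (j + 1)) ?_
    have h1 : j + 2 < 3 ^ (j + 1) := by
      induction j with
      | zero => norm_num
      | succ j ih =>
        have := ih (by omega)
        rw [pow_succ]
        omega
    have h2 : (((j + 1 : ℕ) : ℝ) + 1) < 3 ^ (j + 1) := by
      have : (((j + 2 : ℕ)) : ℝ) < ((3 ^ (j + 1) : ℕ) : ℝ) := by exact_mod_cast h1
      push_cast at this ⊢
      linarith
    rw [one_div, inv_pow, ← div_eq_mul_inv, div_lt_one (by positivity)]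
    exact h2
  refine ⟨B, hsumB, ?_, hlt, ?_, ?_⟩
  · intro k
    rcases Nat.lt_or_ge k 2 with hk | hk
    · interval_cases k
      · rw [hB0, norm_div, div_le_one (by rw [norm_pos_iff]; exact hpne)]
        exact hLu
      · rw [hD1, norm_div, hu, div_one]
        exact hξ 0
    · exact (hlt k hk).le
  · rw [hD1, sub_self, norm_zero]
    exact zero_lt_one
  · intro s hs
    set t : ℂ_[p] := (p : ℂ_[p]) * s with ht
    have htn : ‖t‖ ≤ 1 / 3 := by
      rw [ht, norm_mul]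
      calc ‖(p : ℂ_[p])‖ * ‖s‖ ≤ 1 / 3 * 1 := mul_le_mul hpn3 hs (norm_nonneg _) (by norm_num)
        _ = 1 / 3 := mul_one _
    obtain ⟨h1, h2⟩ := log_comp hL a ha ha0 htn
    have ht1 : ‖t‖ < 1 := lt_of_le_of_lt htn (by norm_num)
    have e1 : ∑' k, a k * t ^ k = (∑' k, ξ k * t ^ (k + 1)) / u := by
      have hs1 : Summable fun k => a k * t ^ k := (summable_aux a ha ht1).of_norm
      rw [hs1.tsum_eq_zero_add, ha0, zero_mul, zero_add, ← tsum_div_const]
      refine tsum_congr fun k => ?_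
      rw [has]
      ring
    have e2 : u + ∑' k, ξ k * t ^ (k + 1) = u * (1 + ∑' k, a k * t ^ k) := by
      rw [e1]; field_simp
    have hne : (1 + ∑' k, a k * t ^ k) ≠ 0 := by
      intro h
      have h3 : ∑' k, a k * t ^ k = -1 := by linear_combination h
      rw [h3, norm_neg, norm_one] at h1
      exact lt_irrefl _ h1
    rw [e2, hL.mul _ _ hu0 hne, h2]
    have hs2 : Summable fun k => B k * s ^ k := by
      refine Summable.of_norm_bounded hsumB fun k => ?_
      rw [norm_mul, norm_pow]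
      calc ‖B k‖ * ‖s‖ ^ k ≤ ‖B k‖ * 1 :=
            mul_le_mul_of_nonneg_left (pow_le_one₀ (norm_nonneg _) hs) (norm_nonneg _)
        _ = ‖B k‖ := mul_one _
    have hs3 : Summable fun k => Dk a (k + 1) * t ^ (k + 1) := by
      have := ((summable_nat_add_iff 1).2 hs2).mul_left (p : ℂ_[p])
      refine this.congr fun k => ?_
      rw [hBs, ht]
      ring
    have hs4 : Summable fun k => Dk a k * t ^ k := (summable_nat_add_iff 1).1 hs3
    rw [hs2.tsum_eq_zero_add, hs4.tsum_eq_zero_add, hB0, mul_add, ← tsum_mul_left]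
    have hD0 : Dk a 0 = 0 := by unfold Dk; simp
    rw [hD0, zero_mul, zero_add, pow_zero, mul_one, mul_div_cancel₀ _ hpne]
    congr 1
    refine tsum_congr fun k => ?_
    rw [hBs, ht]
    ring

end Pool.Agent.W74.LF
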